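import Mathlib
import Pool.Agent.APX.RamM

set_option autoImplicit false

/-!
# A bipartite Ramsey problem is in CPLS
-/

namespace Pool.Agent.Results.MP_ddaabd_lc.BipartiteRamsey

open Pool.Agent.APX Pool.Agent.Helper22

/-- The search problem: given `t ≥ 2` and `n ≥ 2 ⌈log₂ t⌉` in unary, find a monochromatic complete
bipartite graph with sides of size at least `⌈(⌊n / ⌈log₂ t⌉⌋ - 1) / 2⌉` and equal to `t` in the
colouring of the pairs of `n`-bit words given by the oracle. It is reducible to CPLS. -/
theorem result : ReducibleToCPLS fun X x y =>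
    2 ≤ (cf x).length → 2 * dig (cf x).length ≤ (cs x).length →
      IsMono X (cf x).length (cs x).length (wt (cf y)) (wt (cs y)) := ram_reducible

end Pool.Agent.Results.MP_ddaabd_lc.BipartiteRamsey
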