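import Mathlib
import Pool.Agent.APX.CollM

set_option autoImplicit false

/-!
# Multiple collisions are in CPLS
-/

namespace Pool.Agent.Results.MP_ddaabd_lc.Collisions

open Pool.Agent.APX Pool.Agent.Helper22

/-- The search problem: given `t` and `n ≥ 1` in unary, find `t` different words of length
`⌈log₂ t⌉ (n + 1)` on which the function with `n`-bit values given by the oracle is constant. It is
reducible to CPLS. -/
theorem result : ReducibleToCPLS fun X x y =>
    IsColl X (cf x).length ((cs x).length + 1) (wt y) := coll_reducible

end Pool.Agent.Results.MP_ddaabd_lc.Collisions
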