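import Mathlib
import Pool.Agent.APX.StudM

set_option autoImplicit false

/-!
# Students with few rounds for the surjective weak pigeonhole principle are in CPLS
-/

namespace Pool.Agent.Results.MP_ddaabd_lc.StudentRounds

open Pool.Agent.APX

/-- Every search problem `Q` which is solved by a student with `K` rounds for a surjection from
`n`-bit words onto the words of length `K (n + 1)`, whose values are refutable claims, is reducible
to CPLS. -/
theorem result (Q : Problem) (T : Student Q) : ReducibleToCPLS Q := T.reducible

end Pool.Agent.Results.MP_ddaabd_lc.StudentRounds
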