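import Mathlib
import Pool.Agent.APX.TriM

set_option autoImplicit false

/-!
# Threefold collisions are in CPLS
-/

namespace Pool.Agent.Results.MP_ddaabd_lc.ThreefoldCollisions

open Pool.Agent.APX Pool.Agent.Helper22

/-- The search problem: given `n ≥ 1` in unary, find three different words of length
`n + 1 + ⌈(n + 1) / 2⌉` with the same value under the function with `n`-bit values given by the
oracle. It is reducible to CPLS. -/
theorem result : ReducibleToCPLS fun X x y => IsTri X (x.length + 1) (wt y) := tri_reducible

end Pool.Agent.Results.MP_ddaabd_lc.ThreefoldCollisions
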